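import Pool.Agent.H77.S6C.UV2
import Pool.Agent.H75.S6C.Ths
import Pool.Agent.H5.K3.BoxX

/-!
# The own slopes turn on the windows, at class level
-/

set_option autoImplicit false

namespace Pool.S6V

open Finset Real
open Pool.Agent.H49.Ent Pool.Agent.H32.Dense Pool.STK Pool.KA Pool.KSAT Pool.K2S Pool.PB Pool.KS6
  Pool.S6C Pool.S6U

/-- An injective map of `Fin 3`. -/
theorem three_inj {ς : Fin 3 → Fin 3} (hς : Function.Injective ς) (j : Fin 3) :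
    j = ς 0 ∨ j = ς 1 ∨ j = ς 2 := by
  obtain ⟨i, hi⟩ := (Finite.injective_iff_surjective.1 hς) j
  fin_cases i
  · exact Or.inl hi.symm
  · exact Or.inr (Or.inl hi.symm)
  · exact Or.inr (Or.inr hi.symm)

/-- The slopes of the fans from the own slope and the plank. -/
theorem own_onL {J : ℕ} (F : Fam 3 J) {A : F.Ω → Prop} {ς : Fin 3 → Fin 3}
    (hς : Function.Injective ς) {w lam P L l : ℕ} {C : ℝ} {Λ : Type} {κ : F.Ω → Λ}
    {pl : Λ → Pln} {al : F.Ω → ℝ} (hP : PkL F A ς w lam P C κ pl) (hO : OwnS F A ς L C al)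
    (h1 : 5 * C * 2 ^ l ≤ 2 ^ L) (h2 : 5 * C * 2 ^ (w + l) ≤ 2 ^ P) :
    ∃ e n : (Fin 3 → ℤ) × (ℕ × F.ζ) → Fin 3 → ℝ, OnL (ς 0) (1 / 2 ^ l) (Fam.pt F) F.d A e n ∧
      ∀ ω, A ω → e (Fam.pt F ω) (ς 0) = 1 ∧ e (Fam.pt F ω) (ς 1) = al ω ∧
        e (Fam.pt F ω) (ς 2) = -(pl (κ ω)).c - (pl (κ ω)).s * al ω := by
  classical
  obtain ⟨φa, hφa⟩ := hO.pt
  obtain ⟨nu, hnu⟩ := hO.on
  obtain ⟨φ, hφ⟩ := hP.pt
  have n1 : ς 1 ≠ ς 0 := fun h => by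
    have := hς h
    exact absurd this (by decide)
  have n2 : ς 2 ≠ ς 0 := fun h => by
    have := hς h
    exact absurd this (by decide)
  have n3 : ς 2 ≠ ς 1 := fun h => by
    have := hς h
    exact absurd this (by decide)
  refine ⟨fun u j => if j = ς 0 then 1 else if j = ς 1 then φa u else
      -(pl (φ u)).c - (pl (φ u)).s * φa u,
    fun u j => if j = ς 0 then 0 else if j = ς 1 then nu u else
      fn (ς 0) (ς 1) (ς 2) (pl (φ u)).c (pl (φ u)).s (pl (φ u)).db - (pl (φ u)).s * nu u,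
    fun ω hω j => ?_, fun ω hω => ⟨?_, ?_, ?_⟩⟩
  · have hl : (0 : ℝ) < 2 ^ l := by positivity
    have hon := hnu ω hω
    have hI := hP.inc ω hω
    have e1 : φa (Fam.pt F ω) = al ω := (hφa ω hω).symm
    have e2 : φ (Fam.pt F ω) = κ ω := (hφ ω hω).symm
    simp only [e1, e2]
    have k1 : C / 2 ^ L ≤ 1 / 5 * (1 / 2 ^ l) := by
      rw [one_div_mul_one_div, div_le_div_iff₀ (by positivity) (by positivity)]
      linarith
    rcases three_inj hς j with rfl | rfl | rfl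
    · rw [if_pos rfl, if_pos rfl]
      have : F.d ω (ς 0) - 1 * F.d ω (ς 0) - 0 = 0 := by ring
      rw [this, abs_zero]
      positivity
    · rw [if_neg n1, if_neg n1, if_pos rfl, if_pos rfl]
      refine hon.trans (k1.trans ?_)
      have : (0 : ℝ) < 1 / 2 ^ l := by positivity
      linarith
    · rw [if_neg n2, if_neg n2, if_neg n3, if_neg n3]
      have k2 := hI.vn
      have hs := hI.s_le
      have k3 : C * 2 ^ w / 2 ^ P ≤ 1 / 5 * (1 / 2 ^ l) := by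
        rw [one_div_mul_one_div, div_le_div_iff₀ (by positivity) (by positivity)]
        rw [pow_add] at h2
        linarith
      have e3 : F.d ω (ς 2) - (-(pl (κ ω)).c - (pl (κ ω)).s * al ω) * F.d ω (ς 0) -
          (fn (ς 0) (ς 1) (ς 2) (pl (κ ω)).c (pl (κ ω)).s (pl (κ ω)).db -
            (pl (κ ω)).s * nu (Fam.pt F ω)) =
          (fn (ς 0) (ς 1) (ς 2) (pl (κ ω)).c (pl (κ ω)).s (F.d ω) -
            fn (ς 0) (ς 1) (ς 2) (pl (κ ω)).c (pl (κ ω)).s (pl (κ ω)).db) -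
          (pl (κ ω)).s * (F.d ω (ς 1) - al ω * F.d ω (ς 0) - nu (Fam.pt F ω)) := by
        unfold fn
        ring
      rw [e3]
      refine (abs_sub _ _).trans ?_
      rw [abs_mul]
      have k4 : |(pl (κ ω)).s| * |F.d ω (ς 1) - al ω * F.d ω (ς 0) - nu (Fam.pt F ω)| ≤
          4 * (1 / 5 * (1 / 2 ^ l)) :=
        mul_le_mul hs (hon.trans k1) (abs_nonneg _) (by norm_num)
      have : (0 : ℝ) < 1 / 2 ^ l := by positivity
      linarith [k2.trans k3]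
  · simp
  · simp only [if_neg n1, if_true]
    exact (hφa ω hω).symm
  · simp only [if_neg n2, if_neg n3]
    rw [← hφa ω hω, ← hφ ω hω]

/-- **The own slopes turn**: on the windows `x`, two own slopes are rarely close to more than
`rot x` digits. -/
theorem tur_cls {S : PCl 3} {a R h₁ : ℝ} {i₀ : Fin 3} {c s₂ : ℝ} {r : ℝ → ℝ} {D : Set ℝ}
    {σ : ℝ → Row} (hC : Cs S a R h₁ i₀ c s₂ r D σ) {T : ℝ} {v x : ℚ} (hv0 : 0 ≤ v)
    (hvx : v ≤ x) (hx1 : x ≤ 1) {δ k : ℝ} (hδ : 0 < δ) (h1 : (σ 1).rot x + δ < (σ 1).pi - k)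
    (h2 : (σ 1).rot x + δ < T - v) (hT1 : (σ 1).rot x + δ ≤ 1) {C ε : ℝ}
    (hε : 0 < ε) :
    Clp S (fun J F A => ∀ ς : Fin 3 → Fin 3, Function.Injective ς → ς 0 = i₀ →
      ∀ (Λ : Type) (κ : F.Ω → Λ) (pl : Λ → Pln) (al : F.Ω → ℝ) (lam : ℕ),
      PkL F A ς ⌊(v : ℝ) * J⌋₊ lam ⌊T * J⌋₊ C κ pl →
      OwnS F A ς ⌊((σ 1).pi - k) * J⌋₊ C al →
      Pe (dbl (Pool.Agent.H49.Ent.cond F.p A True) (slam F ⌊(x : ℝ) * J⌋₊))
        (fun w => |al w.1 - al w.2| ≤ 1 / 2 ^ ⌊((σ 1).rot x + δ) * J⌋₊) ≤ ε) := by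
  classical
  have hr1 := hC.row 1 one_pos le_rfl hC.D1
  have hx0 : 0 ≤ x := hv0.trans hvx
  have hx0' : (0 : ℝ) ≤ x := by exact_mod_cast hx0
  have hv0' : (0 : ℝ) ≤ v := by exact_mod_cast hv0
  have hvx' : (v : ℝ) ≤ x := by exact_mod_cast hvx
  have hx1' : (x : ℝ) ≤ 1 := by exact_mod_cast hx1
  obtain ⟨ro, hro⟩ : ∃ ro, ro = (σ 1).rot x := ⟨_, rfl⟩
  have hro0 : 0 ≤ ro := by rw [hro]; exact num_nonneg hC.ne (hr1.rot x hx0 hx1)
  rw [← hro] at h1 h2 hT1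
  rw [← hro]
  -- the list
  refine Clp.step ⟨1, fun J F _ => qRot i₀ 1 x (ro + δ / 2) J F,
    fun J F _ => qRot_hered _ _ _ _ _ _⟩ fun κ₀ hκ₀ => ?_
  have c1 := (hr1.rot x hx0 hx1).2 (δ / 2) (by linarith)
  rw [← hro] at c1
  have c2 : Clp S (fun J F A => 0 < Pe F.p A) :=
    Clp.base 1 one_pos 0 fun J _ F A hA => lt_of_lt_of_le (Real.exp_pos _)
      (hC.st _ _ _ _ hA).2.2.2
  obtain ⟨m, hm⟩ : ∃ m : ℕ, 5 * C < 2 ^ m := pow_unbounded_of_one_lt _ (by norm_num)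
  obtain ⟨J₂, hJ₂⟩ := Pool.S6K.exp_small (κ := κ₀) (C := max 1 (1 / ε)) hκ₀ (le_max_left _ _)
  obtain ⟨J₃, hJ₃⟩ := exists_nat_gt ((2 * m + 8) / δ)
  refine Clp.mono (J₂ := max J₂ J₃) (c1.and c2) ?_
  rintro J hJ F A ⟨d1, hA⟩ hSb ς hς hς0 Λ κ pl al lam hP hO
  have hJ₂' := hJ₂ J ((le_max_left _ _).trans hJ)
  have hJr : (2 * m + 8) / δ < J := hJ₃.trans_le (by exact_mod_cast (le_max_right _ _).trans hJ)
  have hJδ : 2 * m + 8 < J * δ := by rwa [div_lt_iff₀ hδ] at hJr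
  have hJ0 : (0 : ℝ) ≤ J := Nat.cast_nonneg J
  have hs0 : Stb F.p (κ₀ * J) A (qRot i₀ 1 x (ro + δ / 2) J F) := hSb 0
  have hn : ¬ qRot i₀ 1 x (ro + δ / 2) J F A := fun h => d1 (Or.inr ⟨by linarith, h⟩)
  obtain ⟨l, hl⟩ : ∃ l, l = ⌊(ro + δ / 2) * J⌋₊ := ⟨_, rfl⟩
  obtain ⟨l', hl'⟩ : ∃ l', l' = ⌊(ro + δ) * J⌋₊ := ⟨_, rfl⟩
  have hl0 : (l : ℝ) ≤ (ro + δ / 2) * J := by rw [hl]; exact Nat.floor_le (by positivity)
  have b1 : l + 2 ≤ l' := by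
    rw [hl']
    refine Nat.le_floor ?_
    push_cast
    linarith
  have b2 : m + l ≤ ⌊((σ 1).pi - k) * J⌋₊ := by
    refine Nat.le_floor ?_
    push_cast
    have : (ro + δ) * J ≤ ((σ 1).pi - k) * J := mul_le_mul_of_nonneg_right h1.le hJ0
    linarith
  have b3 : m + (⌊(v : ℝ) * J⌋₊ + l) ≤ ⌊T * J⌋₊ := by
    refine Nat.le_floor ?_
    push_cast
    have e1 : (ro + δ) * J ≤ (T - v) * J := mul_le_mul_of_nonneg_right h2.le hJ0
    have e2 : (⌊(v : ℝ) * J⌋₊ : ℝ) ≤ v * J := Nat.floor_le (by positivity)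
    linarith
  have g1 : 5 * C * 2 ^ l ≤ 2 ^ ⌊((σ 1).pi - k) * J⌋₊ := by
    calc 5 * C * 2 ^ l ≤ 2 ^ m * 2 ^ l := mul_le_mul_of_nonneg_right hm.le (by positivity)
      _ = 2 ^ (m + l) := by rw [pow_add]
      _ ≤ _ := pow_le_pow_right₀ (by norm_num) b2
  have g2 : 5 * C * 2 ^ (⌊(v : ℝ) * J⌋₊ + l) ≤ 2 ^ ⌊T * J⌋₊ := by
    calc 5 * C * 2 ^ (⌊(v : ℝ) * J⌋₊ + l) ≤ 2 ^ m * 2 ^ (⌊(v : ℝ) * J⌋₊ + l) :=
          mul_le_mul_of_nonneg_right hm.le (by positivity)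
      _ = 2 ^ (m + (⌊(v : ℝ) * J⌋₊ + l)) := by rw [pow_add 2 m]
      _ ≤ _ := pow_le_pow_right₀ (by norm_num) b3
  obtain ⟨e, n, hon, hen⟩ := own_onL F hς hP hO g1 g2
  rw [hς0] at hon
  have hpq : (Pool.KS6.ptq F ⌊(1 : ℝ) * J⌋₊) = Fam.pt F := ptq_one F
  unfold qRot at hs0 hn
  rw [← hl, hpq] at hs0 hn
  have key := hs0.rotU_cpy_lt F.isLaw hA hn hon (wn' := slam F ⌊(x : ℝ) * J⌋₊) (φ := id)
    (fun _ => rfl)
  have hexp : Real.exp (-(κ₀ * J)) ≤ ε := by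
    refine hJ₂'.trans ?_
    rw [div_le_iff₀ (by positivity)]
    have h1 := le_max_right 1 (1 / ε)
    have h2 : ε * (1 / ε) ≤ ε * max 1 (1 / ε) := mul_le_mul_of_nonneg_left h1 hε.le
    rw [mul_one_div_cancel hε.ne'] at h2
    exact h2
  have hq := cpy_thm F.Ω _ (Pool.Agent.H49.Ent.cond F.p A True) (isLaw_cond F.isLaw hA)
    (slam F ⌊(x : ℝ) * J⌋₊)
  refine le_trans (Pool.K3.Pe_le_pos (q := cpy (Pool.Agent.H49.Ent.cond F.p A True)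
    (slam F ⌊(x : ℝ) * J⌋₊)) hq.1 ?_) (key.le.trans hexp)
  intro w hw hal j
  obtain ⟨p1, p2, p3⟩ := hq.2.2.2.2.1 w hw
  have w1 : A w.1 := by
    have := ((cond_pos_iff F.isLaw.nonneg A True w.1).1 p1).2
    simpa using this
  have w2 : A w.2 := by
    have := ((cond_pos_iff F.isLaw.nonneg A True w.2).1 p2).2
    simpa using this
  obtain ⟨x1, x2, x3⟩ := hen w.1 w1
  obtain ⟨y1, y2, y3⟩ := hen w.2 w2
  have hκw : κ w.1 = κ w.2 := by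
    obtain ⟨ψ, hψ⟩ := hP.sl
    rw [hψ _ w1, hψ _ w2, slam_coarse F (floor_row hvx' J) (floor_row_one hx1' J) w.1,
      slam_coarse F (floor_row hvx' J) (floor_row_one hx1' J) w.2, p3]
  have hll : (1 : ℝ) / 2 ^ l' ≤ 1 / 2 ^ l / 4 := by
    have h1 : (1 : ℝ) / 2 ^ l' ≤ 1 / 2 ^ (l + 2) := inv_mono b1
    have h2 : (1 : ℝ) / 2 ^ (l + 2) = 1 / 2 ^ l / 4 := by
      rw [pow_add]
      field_simp
      norm_num
    linarith
  have hl0' : (0 : ℝ) < 1 / 2 ^ l := by positivity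
  have hal' : |al w.1 - al w.2| ≤ 1 / 2 ^ l / 4 := by
    refine le_trans ?_ hll
    rw [hl']
    exact hal
  rcases three_inj hς j with rfl | rfl | rfl
  · rw [x1, y1, sub_self, abs_zero]
    positivity
  · rw [x2, y2]
    linarith
  · rw [x3, y3, hκw]
    have e1 : -(pl (κ w.2)).c - (pl (κ w.2)).s * al w.1 -
        (-(pl (κ w.2)).c - (pl (κ w.2)).s * al w.2) =
        -(pl (κ w.2)).s * (al w.1 - al w.2) := by ring
    rw [e1, abs_mul, abs_neg]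
    have hs := (hP.inc w.2 w2).s_le
    have e2 : |(pl (κ w.2)).s| * |al w.1 - al w.2| ≤ 4 * (1 / 2 ^ l / 4) :=
      mul_le_mul hs hal' (abs_nonneg _) (by norm_num)
    linarith

end Pool.S6V
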