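import Pool.Agent.H24.S6D.LxS
import Pool.Agent.H5.S6D.Tur

/-!
# LEMMA X, the class half: the own slopes turn (`LxTStmt`)
-/

set_option autoImplicit false

namespace Pool.S6V

open Finset Real
open Pool.Agent.H49.Ent Pool.Agent.H32.Dense Pool.STK Pool.KA Pool.KSAT Pool.K2S Pool.PB Pool.KS6
  Pool.S6C Pool.S6U

theorem pr_pe {Ω : Type} [Fintype Ω] (p : Ω → ℝ) (E : Set Ω) :
    Pool.KAF.Pr p E = Pe p (fun ω => ω ∈ E) := by
  classical
  rw [Pool.KAF.Pr_eq, Pe_eq]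

/-- **(LXT)** -/
theorem lxt_thm : LxTStmt := by
  classical
  intro S a₁ R h₁ i₀ c s₂ r D₀ σ hC x hx0 hx1 h ε C hh hε hC1 hroh
  have hr1 := hC.row 1 one_pos le_rfl hC.D1
  have hx0' : (0 : ℝ) ≤ x := by exact_mod_cast hx0
  have hx1' : (x : ℝ) ≤ 1 := by exact_mod_cast hx1
  obtain ⟨ro, hro⟩ : ∃ ro, ro = (σ 1).rot x := ⟨_, rfl⟩
  have hro0 : 0 ≤ ro := by rw [hro]; exact num_nonneg hC.ne (hr1.rot x hx0 hx1)
  rw [← hro] at hroh
  rw [← hro]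
  -- the list
  refine Clp.step ⟨1, fun J F _ => qRot i₀ 1 x (ro + h) J F,
    fun J F _ => qRot_hered _ _ _ _ _ _⟩ fun κ₀ hκ₀ => ?_
  have c1 := (hr1.rot x hx0 hx1).2 h hh
  rw [← hro] at c1
  have c2 : Clp S (fun J F A => 0 < Pe F.p A) :=
    Clp.base 1 one_pos 0 fun J _ F A hA => lt_of_lt_of_le (Real.exp_pos _)
      (hC.st _ _ _ _ hA).2.2.2
  obtain ⟨m, hm⟩ : ∃ m : ℕ, 3 * C ^ 2 < 2 ^ m := pow_unbounded_of_one_lt _ (by norm_num)
  obtain ⟨J₂, hJ₂⟩ := Pool.S6K.exp_small (κ := κ₀) (C := max 2 (2 / ε)) hκ₀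
    ((by norm_num : (1 : ℝ) ≤ 2).trans (le_max_left _ _))
  obtain ⟨J₃, hJ₃⟩ := exists_nat_gt ((m + 1) / h)
  refine Clp.mono (J₂ := max J₂ J₃) (c1.and c2) ?_
  rintro J hJ F A ⟨d1, hA⟩ hSb B hB hPB ς hς hς0 w₀ Hu HN K D Λ κ pl al hw₀ hκp hκs halp halb hplb
    ⟨nu, hnu⟩ ⟨b, k, hbk⟩ hHu hHN hK hD
  have hJ₂' := hJ₂ J ((le_max_left _ _).trans hJ)
  have hJr : (m + 1) / h < J := hJ₃.trans_le (by exact_mod_cast (le_max_right _ _).trans hJ)
  have hJh : m + 1 < J * h := by rwa [div_lt_iff₀ hh] at hJr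
  have hJ0 : (0 : ℝ) ≤ J := Nat.cast_nonneg J
  have hs0 : Stb F.p (κ₀ * J) A (qRot i₀ 1 x (ro + h) J F) := hSb 0
  have hn : ¬ qRot i₀ 1 x (ro + h) J F A := fun h' => d1 (Or.inr ⟨by linarith, h'⟩)
  have hexp2 : Real.exp (-(κ₀ * J)) ≤ 1 / 2 := by
    refine hJ₂'.trans ?_
    exact one_div_le_one_div_of_le (by norm_num) (le_max_left _ _)
  have hexpε : 2 * Real.exp (-(κ₀ * J)) ≤ ε := by
    have h1 : 1 / max 2 (2 / ε) ≤ 1 / (2 / ε) :=
      one_div_le_one_div_of_le (by positivity) (le_max_right _ _)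
    have h2 : 1 / (2 / ε) = ε / 2 := by field_simp
    linarith
  have hA0 : 0 ≤ Pe F.p A := hA.le
  have hB0 : 0 < Pe F.p B := by linarith
  -- the stability on `B`
  have hbig : ∀ B' : F.Ω → Prop, Sub B' B →
      Real.exp (-(κ₀ * J - Real.log 2)) * Pe F.p B ≤ Pe F.p B' →
      ¬ qRot i₀ 1 x (ro + h) J F B' := by
    intro B' hB' hPB'
    rcases hs0 with hs0 | hs0
    · exact absurd hs0 hn
    refine hs0 B' (fun ω hω => hB ω (hB' ω hω)) (le_trans ?_ hPB')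
    have e1 : Real.exp (-(κ₀ * J - Real.log 2)) = 2 * Real.exp (-(κ₀ * J)) := by
      rw [show -(κ₀ * (J : ℝ) - Real.log 2) = Real.log 2 + -(κ₀ * J) by ring, Real.exp_add,
        Real.exp_log (by norm_num)]
    rw [e1]
    have e2 : 2 * Real.exp (-(κ₀ * J)) * (1 / 2 * Pe F.p A) ≤
        2 * Real.exp (-(κ₀ * J)) * Pe F.p B :=
      mul_le_mul_of_nonneg_left hPB (by positivity)
    linarith
  have hsB : Stb F.p (κ₀ * J - Real.log 2) B (qRot i₀ 1 x (ro + h) J F) := Or.inr hbig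
  have hnB : ¬ qRot i₀ 1 x (ro + h) J F B := by
    refine hbig B (fun ω hω => hω) ?_
    have e1 : Real.exp (-(κ₀ * J - Real.log 2)) = 2 * Real.exp (-(κ₀ * J)) := by
      rw [show -(κ₀ * (J : ℝ) - Real.log 2) = Real.log 2 + -(κ₀ * J) by ring, Real.exp_add,
        Real.exp_log (by norm_num)]
    rw [e1]
    calc 2 * Real.exp (-(κ₀ * J)) * Pe F.p B ≤ 2 * (1 / 2) * Pe F.p B :=
          mul_le_mul_of_nonneg_right (by linarith) hB0.le
      _ = Pe F.p B := by ring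
  -- the scale
  obtain ⟨l, hl⟩ : ∃ l, l = ⌊(ro + h) * J⌋₊ := ⟨_, rfl⟩
  have hl0 : (l : ℝ) ≤ (ro + h) * J := by rw [hl]; exact Nat.floor_le (by positivity)
  have hlev : ∀ H : ℕ, (ro + 2 * h) * J ≤ H → m + l ≤ H := by
    intro H hH
    have : ((m + l : ℕ) : ℝ) ≤ H := by
      push_cast
      linarith
    exact_mod_cast this
  have hC2 : C ≤ C ^ 2 := by nlinarith
  have hq : ∀ H : ℕ, (ro + 2 * h) * J ≤ H → 3 * C ^ 2 * (1 / 2 ^ H) ≤ 1 / 2 ^ l := by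
    intro H hH
    have h1 : (1 : ℝ) / 2 ^ H ≤ 1 / 2 ^ (m + l) := inv_mono (hlev H hH)
    have h2 : 3 * C ^ 2 * (1 / 2 ^ H) ≤ 2 ^ m * (1 / 2 ^ (m + l)) :=
      mul_le_mul hm.le h1 (by positivity) (by positivity)
    have h3 : (2 : ℝ) ^ m * (1 / 2 ^ (m + l)) = 1 / 2 ^ l := by
      rw [pow_add]
      field_simp
    linarith
  have hu0 : (0 : ℝ) < 1 / 2 ^ l := by positivity
  -- the frame
  obtain ⟨φ, hφ⟩ := hκp
  obtain ⟨φa, hφa⟩ := halp
  have n1 : ς 1 ≠ ς 0 := fun h => by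
    have := hς h
    exact absurd this (by decide)
  have n2 : ς 2 ≠ ς 0 := fun h => by
    have := hς h
    exact absurd this (by decide)
  have n3 : ς 2 ≠ ς 1 := fun h => by
    have := hς h
    exact absurd this (by decide)
  obtain ⟨e, he⟩ : ∃ e : (Fin 3 → ℤ) × (ℕ × F.ζ) → Fin 3 → ℝ, e = fun u j =>
      if j = ς 0 then 1 else if j = ς 1 then φa u else -(pl (φ u)).c - (pl (φ u)).s * φa u :=
    ⟨_, rfl⟩
  obtain ⟨n, hn'⟩ : ∃ n : (Fin 3 → ℤ) × (ℕ × F.ζ) → Fin 3 → ℝ, n = fun u j =>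
      if j = ς 0 then 0 else if j = ς 1 then nu u else b u - (pl (φ u)).s * nu u := ⟨_, rfl⟩
  have hon : OnL i₀ (1 / 2 ^ l) (Fam.pt F) F.d B e n := by
    intro ω hω j
    have e1 : φa (Fam.pt F ω) = al ω := (hφa ω hω).symm
    have e2 : φ (Fam.pt F ω) = κ ω := (hφ ω hω).symm
    have k1 := hnu ω hω
    obtain ⟨k2, k3⟩ := hbk ω hω
    have hs := (hplb ω hω).1
    have q1 : C / 2 ^ Hu ≤ 1 / 3 * (1 / 2 ^ l) ∧ C * (C / 2 ^ Hu) ≤ 1 / 3 * (1 / 2 ^ l) := by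
      have h1 := hq Hu hHu
      have h2 : C * (1 / 2 ^ Hu) ≤ C ^ 2 * (1 / 2 ^ Hu) :=
        mul_le_mul_of_nonneg_right hC2 (by positivity)
      have h3 : C / 2 ^ Hu = C * (1 / 2 ^ Hu) := by ring
      constructor
      · linarith
      · have : C * (C / 2 ^ Hu) = C ^ 2 * (1 / 2 ^ Hu) := by ring
        linarith
    have q2 : C / 2 ^ HN ≤ 1 / 3 * (1 / 2 ^ l) := by
      have h1 := hq HN hHN
      have h2 : C * (1 / 2 ^ HN) ≤ C ^ 2 * (1 / 2 ^ HN) :=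
        mul_le_mul_of_nonneg_right hC2 (by positivity)
      have h3 : C / 2 ^ HN = C * (1 / 2 ^ HN) := by ring
      linarith
    have q3 : C / 2 ^ K ≤ 1 / 3 * (1 / 2 ^ l) := by
      have h1 := hq K hK
      have h2 : C * (1 / 2 ^ K) ≤ C ^ 2 * (1 / 2 ^ K) :=
        mul_le_mul_of_nonneg_right hC2 (by positivity)
      have h3 : C / 2 ^ K = C * (1 / 2 ^ K) := by ring
      linarith
    rw [he, hn', ← hς0]
    simp only [e1, e2]
    rcases three_inj hς j with rfl | rfl | rfl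
    · rw [if_pos rfl, if_pos rfl]
      have : F.d ω (ς 0) - 1 * F.d ω (ς 0) - 0 = 0 := by ring
      rw [this, abs_zero]
      exact hu0.le
    · rw [if_neg n1, if_neg n1, if_pos rfl, if_pos rfl]
      linarith [q1.1]
    · rw [if_neg n2, if_neg n2, if_neg n3, if_neg n3]
      have e3 : F.d ω (ς 2) - (-(pl (κ ω)).c - (pl (κ ω)).s * al ω) * F.d ω (ς 0) -
          (b (Fam.pt F ω) - (pl (κ ω)).s * nu (Fam.pt F ω)) =
          (fn (ς 0) (ς 1) (ς 2) (pl (κ ω)).c (pl (κ ω)).s (F.d ω) - b (Fam.pt F ω) -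
            k (Fam.pt F ω) * F.d ω (ς 0)) + k (Fam.pt F ω) * F.d ω (ς 0) -
          (pl (κ ω)).s * (F.d ω (ς 1) - al ω * F.d ω (ς 0) - nu (Fam.pt F ω)) := by
        unfold fn
        ring
      rw [e3]
      refine (abs_sub _ _).trans ((add_le_add (abs_add_le _ _) le_rfl).trans ?_)
      rw [abs_mul, abs_mul]
      have k4 : |(pl (κ ω)).s| * |F.d ω (ς 1) - al ω * F.d ω (ς 0) - nu (Fam.pt F ω)| ≤
          C * (C / 2 ^ Hu) :=
        mul_le_mul hs k1 (abs_nonneg _) (by linarith)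
      have k5 : |k (Fam.pt F ω)| * |F.d ω (ς 0)| ≤ C / 2 ^ K * 1 :=
        mul_le_mul k3 (F.dir ω (ς 0)) (abs_nonneg _) (by positivity)
      linarith [q1.2]
  have hen : ∀ ω, B ω → e (Fam.pt F ω) (ς 0) = 1 ∧ e (Fam.pt F ω) (ς 1) = al ω ∧
      e (Fam.pt F ω) (ς 2) = -(pl (κ ω)).c - (pl (κ ω)).s * al ω := by
    intro ω hω
    rw [he]
    refine ⟨?_, ?_, ?_⟩
    · simp
    · simp only [if_neg n1, if_true]
      exact (hφa ω hω).symm
    · simp only [if_neg n2, if_neg n3]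
      rw [← hφa ω hω, ← hφ ω hω]
  have hpq : (Pool.KS6.ptq F ⌊(1 : ℝ) * J⌋₊) = Fam.pt F := ptq_one F
  unfold qRot at hsB hnB
  rw [← hl, hpq] at hsB hnB
  have key := hsB.rotU_cpy_lt F.isLaw hB0 hnB hon (wn' := slam F ⌊(x : ℝ) * J⌋₊) (φ := id)
    (fun _ => rfl)
  have hexp : Real.exp (-(κ₀ * J - Real.log 2)) ≤ ε := by
    rw [show -(κ₀ * (J : ℝ) - Real.log 2) = Real.log 2 + -(κ₀ * J) by ring, Real.exp_add,
      Real.exp_log (by norm_num)]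
    exact hexpε
  have hlaw := cpy_thm F.Ω _ (Pool.Agent.H49.Ent.cond F.p B True) (isLaw_cond F.isLaw hB0)
    (slam F ⌊(x : ℝ) * J⌋₊)
  rw [pr_pe]
  refine le_trans (Pool.K3.Pe_le_pos (q := cpy (Pool.Agent.H49.Ent.cond F.p B True)
    (slam F ⌊(x : ℝ) * J⌋₊)) hlaw.1 ?_) (key.le.trans hexp)
  intro w hw hal j
  obtain ⟨p1, p2, p3⟩ := hlaw.2.2.2.2.1 w hw
  have w1 : B w.1 := by
    have := ((cond_pos_iff F.isLaw.nonneg B True w.1).1 p1).2
    simpa using this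
  have w2 : B w.2 := by
    have := ((cond_pos_iff F.isLaw.nonneg B True w.2).1 p2).2
    simpa using this
  obtain ⟨x1, x2, x3⟩ := hen w.1 w1
  obtain ⟨y1, y2, y3⟩ := hen w.2 w2
  have hκw : κ w.1 = κ w.2 := by
    obtain ⟨ψ, hψ⟩ := hκs
    rw [hψ _ w1, hψ _ w2, slam_coarse F hw₀ (floor_row_one hx1' J) w.1,
      slam_coarse F hw₀ (floor_row_one hx1' J) w.2, p3]
  have hal' : |al w.1 - al w.2| ≤ 1 / 2 ^ D := hal
  have hD' := hq D hD
  have hD0 : (0 : ℝ) < 1 / 2 ^ D := by positivity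
  have hCD : C * (1 / 2 ^ D) ≤ 1 / 2 ^ l := by
    have h2 : C * (1 / 2 ^ D) ≤ C ^ 2 * (1 / 2 ^ D) :=
      mul_le_mul_of_nonneg_right hC2 hD0.le
    have h3 : 0 ≤ C ^ 2 * (1 / 2 ^ D) := by positivity
    linarith
  rcases three_inj hς j with rfl | rfl | rfl
  · rw [x1, y1, sub_self, abs_zero]
    exact hu0.le
  · rw [x2, y2]
    refine hal'.trans (le_trans ?_ hCD)
    calc (1 : ℝ) / 2 ^ D = 1 * (1 / 2 ^ D) := (one_mul _).symm
      _ ≤ C * (1 / 2 ^ D) := mul_le_mul_of_nonneg_right hC1 hD0.le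
  · rw [x3, y3, hκw]
    have e1 : -(pl (κ w.2)).c - (pl (κ w.2)).s * al w.1 -
        (-(pl (κ w.2)).c - (pl (κ w.2)).s * al w.2) =
        -(pl (κ w.2)).s * (al w.1 - al w.2) := by ring
    rw [e1, abs_mul, abs_neg]
    exact (mul_le_mul (hplb w.2 w2).1 hal' (abs_nonneg _) (by linarith)).trans hCD

end Pool.S6V
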